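import Pool.Agent.U481.EV.Stm

/-!
Project EV, package ID (helper95): integration by parts and density.
-/

set_option autoImplicit false

open MeasureTheory Set
open scoped ENNReal NNReal ContDiff InnerProductSpace

namespace Pool.Agent.U95.EV

open H772R2.NS Pool.Agent.U481.EV

theorem two_le : (2 : WithTop ℕ∞) ≤ ((⊤ : ℕ∞) : WithTop ℕ∞) := WithTop.coe_le_coe.2 (le_top : (2 : ℕ∞) ≤ ⊤)

/-- unit vectors -/
noncomputable def e (i : Fin 3) : E3 := EuclideanSpace.single i 1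

/-- partial derivatives -/
noncomputable def D (i : Fin 3) (f : E3 → ℝ) (x : E3) : ℝ := fderiv ℝ f x (e i)

theorem D_cont {f : E3 → ℝ} (hf : ContDiff ℝ 1 f) (i : Fin 3) : Continuous (D i f) :=
  (hf.continuous_fderiv one_ne_zero).clm_apply continuous_const

theorem D_supp {f : E3 → ℝ} (hf : HasCompactSupport f) (i : Fin 3) : HasCompactSupport (D i f) :=
  hf.fderiv_apply ℝ (e i)

theorem D_C1 {f : E3 → ℝ} (hf : ContDiff ℝ ∞ f) (i : Fin 3) : ContDiff ℝ 1 (D i f) := by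
  have h : ContDiff ℝ 1 (fderiv ℝ f) := hf.fderiv_right (by rw [one_add_one_eq_two]; exact two_le)
  exact h.clm_apply contDiff_const

theorem D_mul {f g : E3 → ℝ} (hf : ContDiff ℝ 1 f) (hg : ContDiff ℝ 1 g) (i : Fin 3) (x : E3) :
    D i (fun y => f y * g y) x = f x * D i g x + g x * D i f x := by
  unfold D
  have h := fderiv_fun_mul ((hf.differentiable one_ne_zero) x) ((hg.differentiable one_ne_zero) x)
  rw [h]
  simp

theorem D_symm {f : E3 → ℝ} (hf : ContDiff ℝ ∞ f) (i j : Fin 3) (x : E3) :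
    D i (D j f) x = D j (D i f) x := by
  have h1 : ContDiff ℝ 1 (fderiv ℝ f) := hf.fderiv_right (by rw [one_add_one_eq_two]; exact two_le)
  have h2 : ∀ k : Fin 3, ∀ v : E3, fderiv ℝ (fun y => fderiv ℝ f y (e k)) x v =
      fderiv ℝ (fderiv ℝ f) x v (e k) := by
    intro k v
    have h3 : HasFDerivAt (fun y => fderiv ℝ f y (e k))
        ((ContinuousLinearMap.apply ℝ ℝ (e k)).comp (fderiv ℝ (fderiv ℝ f) x)) x :=
      ((ContinuousLinearMap.apply ℝ ℝ (e k)).hasFDerivAt).comp x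
        ((h1.differentiable one_ne_zero) x).hasFDerivAt
    rw [h3.fderiv]
    rfl
  have h4 : IsSymmSndFDerivAt ℝ f x := by
    refine (hf.contDiffAt).isSymmSndFDerivAt ?_
    rw [minSmoothness_of_isRCLikeNormedField]
    exact two_le
  show fderiv ℝ (fun y => fderiv ℝ f y (e j)) x (e i) = fderiv ℝ (fun y => fderiv ℝ f y (e i)) x (e j)
  rw [h2, h2]
  exact h4.eq _ _

theorem intg {f : E3 → ℝ} (hc : Continuous f) (hs : HasCompactSupport f) : Integrable f :=
  hc.integrable_of_hasCompactSupport hs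

theorem ibp {f g : E3 → ℝ} (hf : ContDiff ℝ 1 f) (hg : ContDiff ℝ 1 g) (hfc : HasCompactSupport f)
    (i : Fin 3) : ∫ x, f x * D i g x = -∫ x, D i f x * g x := by
  refine integral_mul_fderiv_eq_neg_fderiv_mul_of_integrable (v := e i) ?_ ?_ ?_
    (fun x _ => (hf.differentiable one_ne_zero) x) (fun x _ => (hg.differentiable one_ne_zero) x)
  · exact intg ((D_cont hf i).mul hg.continuous) ((D_supp hfc i).mul_right)
  · exact intg (hf.continuous.mul (D_cont hg i)) hfc.mul_right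
  · exact intg (hf.continuous.mul hg.continuous) hfc.mul_right

/-- the main identity for one component -/
theorem comp {χ H ψ : E3 → ℝ} (hχ : ContDiff ℝ ∞ χ) (hχc : HasCompactSupport χ)
    (hH : ContDiff ℝ 1 H) (hψ : ContDiff ℝ ∞ ψ) (i j : Fin 3) :
    ∫ x, χ x * (D i H x * D j ψ x - D j H x * D i ψ x) =
      -∫ x, ψ x * (D i H x * D j χ x - D j H x * D i χ x) := by
  have hχ1 : ContDiff ℝ 1 χ := hχ.of_le (by exact_mod_cast le_top)
  have hψ1 : ContDiff ℝ 1 ψ := hψ.of_le (by exact_mod_cast le_top)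
  have hu : ContDiff ℝ 1 (fun y => χ y * H y) := hχ1.mul hH
  have huc : HasCompactSupport (fun y => χ y * H y) := hχc.mul_right
  have hv : ∀ k, ContDiff ℝ 1 (fun y => H y * D k χ y) := fun k => hH.mul (D_C1 hχ k)
  have hvc : ∀ k, HasCompactSupport (fun y => H y * D k χ y) := fun k => (D_supp hχc k).mul_left
  have I1 := ibp hu (D_C1 hψ j) huc i
  have I2 := ibp hu (D_C1 hψ i) huc j
  have I3 := ibp (hv i) hψ1 (hvc i) j
  have I4 := ibp (hv j) hψ1 (hvc j) i
  have e12 : ∫ x, (fun y => χ y * H y) x * D i (D j ψ) x =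
      ∫ x, (fun y => χ y * H y) x * D j (D i ψ) x := by
    refine integral_congr_ae (Filter.Eventually.of_forall fun x => ?_)
    beta_reduce
    rw [D_symm hψ i j x]
  have c1 : Continuous χ := hχ1.continuous
  have c2 : Continuous H := hH.continuous
  have c3 : Continuous ψ := hψ1.continuous
  have c4 : ∀ k, Continuous (D k χ) := fun k => D_cont hχ1 k
  have c5 : ∀ k, Continuous (D k H) := fun k => D_cont hH k
  have c6 : ∀ k, Continuous (D k ψ) := fun k => D_cont hψ1 k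
  have a1 : Integrable fun x => D i (fun y => χ y * H y) x * D j ψ x :=
    intg ((D_cont hu i).mul (c6 j)) (D_supp huc i).mul_right
  have a2 : Integrable fun x => D j (fun y => χ y * H y) x * D i ψ x :=
    intg ((D_cont hu j).mul (c6 i)) (D_supp huc j).mul_right
  have a3 : Integrable fun x => (fun y => H y * D i χ y) x * D j ψ x :=
    intg ((hv i).continuous.mul (c6 j)) (hvc i).mul_right
  have a4 : Integrable fun x => (fun y => H y * D j χ y) x * D i ψ x :=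
    intg ((hv j).continuous.mul (c6 i)) (hvc j).mul_right
  have b3 : Integrable fun x => D j (fun y => H y * D i χ y) x * ψ x :=
    intg ((D_cont (hv i) j).mul c3) (D_supp (hvc i) j).mul_right
  have b4 : Integrable fun x => D i (fun y => H y * D j χ y) x * ψ x :=
    intg ((D_cont (hv j) i).mul c3) (D_supp (hvc j) i).mul_right
  have L : ∫ x, χ x * (D i H x * D j ψ x - D j H x * D i ψ x) =
      (∫ x, D i (fun y => χ y * H y) x * D j ψ x) - (∫ x, D j (fun y => χ y * H y) x * D i ψ x) -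
      ((∫ x, (fun y => H y * D i χ y) x * D j ψ x) -
        ∫ x, (fun y => H y * D j χ y) x * D i ψ x) := by
    have a12 : Integrable fun x => D i (fun y => χ y * H y) x * D j ψ x -
        D j (fun y => χ y * H y) x * D i ψ x := a1.sub a2
    have a34 : Integrable fun x => (fun y => H y * D i χ y) x * D j ψ x -
        (fun y => H y * D j χ y) x * D i ψ x := a3.sub a4
    rw [← integral_sub a1 a2, ← integral_sub a3 a4, ← integral_sub a12 a34]
    refine integral_congr_ae (Filter.Eventually.of_forall fun x => ?_)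
    beta_reduce
    rw [D_mul hχ1 hH, D_mul hχ1 hH]
    ring
  have R : ∫ x, ψ x * (D i H x * D j χ x - D j H x * D i χ x) =
      (∫ x, D i (fun y => H y * D j χ y) x * ψ x) - ∫ x, D j (fun y => H y * D i χ y) x * ψ x := by
    rw [← integral_sub b4 b3]
    refine integral_congr_ae (Filter.Eventually.of_forall fun x => ?_)
    beta_reduce
    rw [D_mul hH (D_C1 hχ j), D_mul hH (D_C1 hχ i), D_symm hχ i j x]
    ring
  rw [L, R, I3, I4]
  rw [e12, I2] at I1
  linarith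

theorem sum_e (w : E3) : w = ∑ i, w i • e i := by
  ext j
  simp only [Fin.sum_univ_three, e, PiLp.add_apply, PiLp.smul_apply, smul_eq_mul]
  fin_cases j <;> simp

theorem apply_sum (L : E3 →L[ℝ] ℝ) (w : E3) : L w = w 0 * L (e 0) + w 1 * L (e 1) + w 2 * L (e 2) := by
  conv_lhs => rw [sum_e w]
  rw [map_sum, Fin.sum_univ_three]
  simp

theorem grad_le (L : E3 →L[ℝ] ℝ) : L (e 0) ^ 2 + L (e 1) ^ 2 + L (e 2) ^ 2 ≤ ‖L‖ ^ 2 := by
  set w : E3 := WithLp.toLp 2 ![L (e 0), L (e 1), L (e 2)] with hw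
  have h1 : L w = L (e 0) ^ 2 + L (e 1) ^ 2 + L (e 2) ^ 2 := by
    rw [apply_sum L w, hw]
    simp
    ring
  have h2 : ‖w‖ ^ 2 = L (e 0) ^ 2 + L (e 1) ^ 2 + L (e 2) ^ 2 := by
    rw [EuclideanSpace.norm_sq_eq, Fin.sum_univ_three, hw]
    simp
  have h3 : |L w| ≤ ‖L‖ * ‖w‖ := L.le_opNorm w
  set S := L (e 0) ^ 2 + L (e 1) ^ 2 + L (e 2) ^ 2 with hS
  have hS0 : 0 ≤ S := by positivity
  rw [h1, abs_of_nonneg hS0] at h3
  have hw0 : 0 ≤ ‖w‖ := norm_nonneg w
  rcases hw0.eq_or_lt with h | h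
  · rw [← h] at h2
    nlinarith [sq_nonneg ‖L‖]
  · have h4 : ‖w‖ * ‖w‖ ≤ ‖L‖ * ‖w‖ := by
      rw [← pow_two, h2]
      exact h3
    have h5 : ‖w‖ ≤ ‖L‖ := le_of_mul_le_mul_right h4 h
    rw [← h2]
    exact pow_le_pow_left₀ hw0 h5 2

theorem triple (p0 p1 p2 a0 a1 a2 b0 b1 b2 : ℝ) :
    (p2 * (a0 * b1 - a1 * b0) + p0 * (a1 * b2 - a2 * b1) + p1 * (a2 * b0 - a0 * b2)) ^ 2 ≤
      (p0 ^ 2 + p1 ^ 2 + p2 ^ 2) * ((a0 ^ 2 + a1 ^ 2 + a2 ^ 2) * (b0 ^ 2 + b1 ^ 2 + b2 ^ 2)) := by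
  have h1 : ∀ c0 c1 c2 : ℝ, (p2 * c2 + p0 * c0 + p1 * c1) ^ 2 ≤
      (p0 ^ 2 + p1 ^ 2 + p2 ^ 2) * (c0 ^ 2 + c1 ^ 2 + c2 ^ 2) := by
    intro c0 c1 c2
    nlinarith [sq_nonneg (p0 * c1 - p1 * c0), sq_nonneg (p0 * c2 - p2 * c0),
      sq_nonneg (p1 * c2 - p2 * c1)]
  have h2 : (a1 * b2 - a2 * b1) ^ 2 + (a2 * b0 - a0 * b2) ^ 2 + (a0 * b1 - a1 * b0) ^ 2 ≤
      (a0 ^ 2 + a1 ^ 2 + a2 ^ 2) * (b0 ^ 2 + b1 ^ 2 + b2 ^ 2) := by
    nlinarith [sq_nonneg (a0 * b0 + a1 * b1 + a2 * b2)]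
  exact (h1 _ _ _).trans (mul_le_mul_of_nonneg_left h2 (by positivity))

theorem jac_eq {φ : E3 → E3} (hφ : ContDiff ℝ ∞ φ) (i j : Fin 3) (x : E3) :
    jac φ x (j, i) = D i (fun y => φ y j) x := by
  have h1 : DifferentiableAt ℝ φ x := (hφ.differentiable (by simp)) x
  have h2 : HasFDerivAt (fun y => φ y j)
      ((EuclideanSpace.proj j : E3 →L[ℝ] ℝ).comp (fderiv ℝ φ x)) x :=
    ((EuclideanSpace.proj j : E3 →L[ℝ] ℝ).hasFDerivAt).comp x h1.hasFDerivAt
  unfold D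
  rw [h2.fderiv]
  rfl

/-- the linear form of the gradient -/
theorem rot_sum (L : E3 →L[ℝ] ℝ) (z : M3) : L (rot z) =
    L (e 0) * (z (2, 1) - z (1, 2)) + L (e 1) * (z (0, 2) - z (2, 0)) +
      L (e 2) * (z (1, 0) - z (0, 1)) := by
  rw [apply_sum L (rot z)]
  unfold rot
  simp
  ring

/-- the inequality for test fields -/
theorem test {Ω : Set E3} {φ : E3 → E3} (hφ : IsTest Ω φ) {χ H : E3 → ℝ} (hχ : ContDiff ℝ ∞ χ)
    (hχc : HasCompactSupport χ) (hH : ContDiff ℝ 1 H) :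
    |∫ y in Ω, χ y * fderiv ℝ H y (rot (jac φ y))| ≤
      ∫ y in Ω, ‖φ y‖ * (‖fderiv ℝ H y‖ * ‖fderiv ℝ χ y‖) := by
  have hφs := hφ.smooth
  have hc : ∀ j : Fin 3, ContDiff ℝ ∞ (fun y => φ y j) := fun j =>
    ((EuclideanSpace.proj j : E3 →L[ℝ] ℝ).contDiff).comp hφs
  have hout : ∀ x, x ∉ Ω → φ x = 0 := fun x hx =>
    image_eq_zero_of_notMem_tsupport (fun h => hx (hφ.supp h))
  have hjout : ∀ x, x ∉ Ω → jac φ x = 0 := by
    intro x hx
    have h1 : x ∉ tsupport φ := fun h => hx (hφ.supp h)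
    have h2 : fderiv ℝ φ x = 0 := image_eq_zero_of_notMem_tsupport
      (fun h => h1 (tsupport_fderiv_subset ℝ h))
    unfold jac
    rw [h2]
    ext p
    simp
  have hr0 : rot (0 : M3) = 0 := by
    ext i
    fin_cases i <;> simp [rot]
  have e1 : ∫ y in Ω, χ y * fderiv ℝ H y (rot (jac φ y)) =
      ∫ y, χ y * fderiv ℝ H y (rot (jac φ y)) := by
    refine setIntegral_eq_integral_of_forall_compl_eq_zero fun x hx => ?_
    rw [hjout x hx, hr0, map_zero, mul_zero]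
  have e2 : ∫ y in Ω, ‖φ y‖ * (‖fderiv ℝ H y‖ * ‖fderiv ℝ χ y‖) =
      ∫ y, ‖φ y‖ * (‖fderiv ℝ H y‖ * ‖fderiv ℝ χ y‖) := by
    refine setIntegral_eq_integral_of_forall_compl_eq_zero fun x hx => ?_
    rw [hout x hx, norm_zero, zero_mul]
  have hχ1 : ContDiff ℝ 1 χ := hχ.of_le (by exact_mod_cast le_top)
  have hc1 : ∀ j, ContDiff ℝ 1 (fun y => φ y j) := fun j => (hc j).of_le (by exact_mod_cast le_top)
  have c5 : ∀ k, Continuous (D k H) := fun k => D_cont hH k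
  have ia : ∀ i j k : Fin 3, Integrable fun x =>
      χ x * (D i H x * D j (fun y => φ y k) x - D j H x * D i (fun y => φ y k) x) := by
    intro i j k
    exact intg (hχ1.continuous.mul (((c5 i).mul (D_cont (hc1 k) j)).sub
      ((c5 j).mul (D_cont (hc1 k) i)))) hχc.mul_right
  have hDχc : ∀ i j : Fin 3, HasCompactSupport fun x => D i H x * D j χ x - D j H x * D i χ x := by
    intro i j
    have h1 : HasCompactSupport fun x => D i H x * D j χ x := (D_supp hχc j).mul_left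
    have h2 : HasCompactSupport fun x => D j H x * D i χ x := (D_supp hχc i).mul_left
    exact h1.sub h2
  have ib : ∀ i j k : Fin 3, Integrable fun x =>
      φ x k * (D i H x * D j χ x - D j H x * D i χ x) := by
    intro i j k
    exact intg ((hc1 k).continuous.mul (((c5 i).mul (D_cont hχ1 j)).sub
      ((c5 j).mul (D_cont hχ1 i)))) (hDχc i j).mul_left
  have e3 : ∫ y, χ y * fderiv ℝ H y (rot (jac φ y)) =
      -∫ y, (φ y 2 * (D 0 H y * D 1 χ y - D 1 H y * D 0 χ y) +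
        φ y 0 * (D 1 H y * D 2 χ y - D 2 H y * D 1 χ y) +
        φ y 1 * (D 2 H y * D 0 χ y - D 0 H y * D 2 χ y)) := by
    have h01 : Integrable fun y => φ y 2 * (D 0 H y * D 1 χ y - D 1 H y * D 0 χ y) +
        φ y 0 * (D 1 H y * D 2 χ y - D 2 H y * D 1 χ y) := (ib 0 1 2).add (ib 1 2 0)
    rw [integral_add h01 (ib 2 0 1), integral_add (ib 0 1 2) (ib 1 2 0)]
    have q1 := comp hχ hχc hH (hc 2) 0 1
    have q2 := comp hχ hχc hH (hc 0) 1 2
    have q3 := comp hχ hχc hH (hc 1) 2 0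
    have k01 : Integrable fun x =>
      χ x * (D 0 H x * D 1 (fun y => φ y 2) x - D 1 H x * D 0 (fun y => φ y 2) x) +
      χ x * (D 1 H x * D 2 (fun y => φ y 0) x - D 2 H x * D 1 (fun y => φ y 0) x) :=
      (ia 0 1 2).add (ia 1 2 0)
    have e4 : ∫ y, χ y * fderiv ℝ H y (rot (jac φ y)) = ∫ x,
        (χ x * (D 0 H x * D 1 (fun y => φ y 2) x - D 1 H x * D 0 (fun y => φ y 2) x) +
        χ x * (D 1 H x * D 2 (fun y => φ y 0) x - D 2 H x * D 1 (fun y => φ y 0) x) +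
        χ x * (D 2 H x * D 0 (fun y => φ y 1) x - D 0 H x * D 2 (fun y => φ y 1) x)) := by
      refine integral_congr_ae (Filter.Eventually.of_forall fun x => ?_)
      beta_reduce
      rw [rot_sum, jac_eq hφs, jac_eq hφs, jac_eq hφs, jac_eq hφs, jac_eq hφs, jac_eq hφs]
      unfold D
      ring
    rw [e4, integral_add k01 (ia 2 0 1), integral_add (ia 0 1 2) (ia 1 2 0), q1, q2, q3]
    ring
  rw [e1, e2, e3, abs_neg]
  have hi1 : Integrable fun y => φ y 2 * (D 0 H y * D 1 χ y - D 1 H y * D 0 χ y) +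
        φ y 0 * (D 1 H y * D 2 χ y - D 2 H y * D 1 χ y) +
        φ y 1 * (D 2 H y * D 0 χ y - D 0 H y * D 2 χ y) := by
    have h01 : Integrable fun y => φ y 2 * (D 0 H y * D 1 χ y - D 1 H y * D 0 χ y) +
        φ y 0 * (D 1 H y * D 2 χ y - D 2 H y * D 1 χ y) := (ib 0 1 2).add (ib 1 2 0)
    exact h01.add (ib 2 0 1)
  have hi2 : Integrable fun y => ‖φ y‖ * (‖fderiv ℝ H y‖ * ‖fderiv ℝ χ y‖) := by
    refine intg (hφs.continuous.norm.mul ((hH.continuous_fderiv one_ne_zero).norm.mul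
      (hχ1.continuous_fderiv one_ne_zero).norm)) ?_
    exact (hφ.compact.norm).mul_right
  refine (abs_integral_le_integral_abs).trans (integral_mono hi1.abs hi2 fun y => ?_)
  beta_reduce
  refine abs_le_of_sq_le_sq ?_ (by positivity)
  have t := triple (φ y 0) (φ y 1) (φ y 2) (D 0 H y) (D 1 H y) (D 2 H y) (D 0 χ y) (D 1 χ y)
    (D 2 χ y)
  have n1 : ‖φ y‖ ^ 2 = φ y 0 ^ 2 + φ y 1 ^ 2 + φ y 2 ^ 2 := by
    rw [EuclideanSpace.norm_sq_eq, Fin.sum_univ_three]
    simp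
  have n2 := grad_le (fderiv ℝ H y)
  have n3 := grad_le (fderiv ℝ χ y)
  rw [mul_pow, mul_pow, n1]
  refine t.trans (mul_le_mul_of_nonneg_left ?_ (by positivity))
  exact mul_le_mul n2 n3 (by positivity) (by positivity)

/-- the matrix field representing `z ↦ χ ⟨∇H, rot z⟩` -/
noncomputable def W (χ H : E3 → ℝ) (y : E3) : M3 :=
  WithLp.toLp 2 fun p => χ y * fderiv ℝ H y (rot (EuclideanSpace.single p 1))

theorem W_inner (χ H : E3 → ℝ) (y : E3) (z : M3) :
    ⟪W χ H y, z⟫_ℝ = χ y * fderiv ℝ H y (rot z) := by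
  rw [rot_sum, PiLp.inner_apply, Fintype.sum_prod_type]
  simp only [Fin.sum_univ_three, W, rot_sum, RCLike.inner_apply, conj_trivial]
  simp [EuclideanSpace.single_apply, Prod.mk.injEq]
  ring

theorem W_cont {χ H : E3 → ℝ} (hχ : Continuous χ) (hH : ContDiff ℝ 1 H) :
    Continuous (W χ H) := by
  unfold W
  refine (PiLp.continuous_toLp 2 _).comp (continuous_pi fun p => ?_)
  exact hχ.mul ((hH.continuous_fderiv one_ne_zero).clm_apply continuous_const)

theorem W_supp {χ H : E3 → ℝ} (hχ : HasCompactSupport χ) : HasCompactSupport (W χ H) := by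
  refine hχ.mono fun x hx => ?_
  rw [Function.mem_support] at hx ⊢
  intro h
  apply hx
  unfold W
  ext p
  simp [h]

theorem main : S_id := by
  intro Ω hΩ v z hvz χ H hχ hχc hH
  have hχ1 : ContDiff ℝ 1 χ := hχ.of_le (by exact_mod_cast le_top)
  have hW : MemLp (W χ H) 2 (volume.restrict Ω) :=
    ((W_cont hχ1.continuous hH).memLp_of_hasCompactSupport (W_supp hχc)).restrict Ω
  have hk0 : Continuous fun y => ‖fderiv ℝ H y‖ * ‖fderiv ℝ χ y‖ :=
    (hH.continuous_fderiv one_ne_zero).norm.mul (hχ1.continuous_fderiv one_ne_zero).norm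
  have hk1 : HasCompactSupport fun y => ‖fderiv ℝ H y‖ * ‖fderiv ℝ χ y‖ :=
    ((hχc.fderiv ℝ).norm).mul_left
  have hk : MemLp (fun y => ‖fderiv ℝ H y‖ * ‖fderiv ℝ χ y‖) 2 (volume.restrict Ω) :=
    (hk0.memLp_of_hasCompactSupport hk1).restrict Ω
  have F : ∀ z : L2M Ω, ∫ y in Ω, χ y * fderiv ℝ H y (rot (z y)) = ⟪hW.toLp _, z⟫_ℝ := by
    intro z
    rw [L2.inner_def]
    refine integral_congr_ae ?_
    filter_upwards [hW.coeFn_toLp] with y hy
    rw [hy, W_inner]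
  have hL : LipschitzWith 1 (fun x : E3 => ‖x‖) := lipschitzWith_one_norm
  have hL0 : (fun x : E3 => ‖x‖) 0 = 0 := norm_zero
  have G : ∀ v : L2V Ω, ∫ y in Ω, ‖v y‖ * (‖fderiv ℝ H y‖ * ‖fderiv ℝ χ y‖) =
      ⟪hk.toLp _, hL.compLp hL0 v⟫_ℝ := by
    intro v
    rw [L2.inner_def]
    refine integral_congr_ae ?_
    filter_upwards [hk.coeFn_toLp, hL.coeFn_compLp hL0 v] with y hy hy2
    rw [hy, hy2]
    simp [RCLike.inner_apply, conj_trivial, Function.comp]
  have hclosed : IsClosed {p : L2V Ω × L2M Ω |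
      |⟪hW.toLp _, p.2⟫_ℝ| ≤ ⟪hk.toLp _, hL.compLp hL0 p.1⟫_ℝ} := by
    refine isClosed_le ?_ ?_
    · exact (continuous_const.inner continuous_snd).abs
    · exact continuous_const.inner ((hL.continuous_compLp hL0).comp continuous_fst)
  have hsub : H1graph Ω ⊆ {p : L2V Ω × L2M Ω |
      |⟪hW.toLp _, p.2⟫_ℝ| ≤ ⟪hk.toLp _, hL.compLp hL0 p.1⟫_ℝ} := by
    refine closure_minimal ?_ hclosed
    rintro ⟨v, z⟩ ⟨φ, hφ, h1, h2⟩
    simp only at h1 h2
    show |⟪hW.toLp _, z⟫_ℝ| ≤ ⟪hk.toLp _, hL.compLp hL0 v⟫_ℝ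
    rw [← F z, ← G v]
    have q1 : ∫ y in Ω, χ y * fderiv ℝ H y (rot (z y)) =
        ∫ y in Ω, χ y * fderiv ℝ H y (rot (jac φ y)) := by
      refine integral_congr_ae ?_
      filter_upwards [h2] with y hy
      rw [hy]
    have q2 : ∫ y in Ω, ‖v y‖ * (‖fderiv ℝ H y‖ * ‖fderiv ℝ χ y‖) =
        ∫ y in Ω, ‖φ y‖ * (‖fderiv ℝ H y‖ * ‖fderiv ℝ χ y‖) := by
      refine integral_congr_ae ?_
      filter_upwards [h1] with y hy
      rw [hy]
    rw [q1, q2]
    exact test hφ hχ hχc hH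
  have := hsub hvz
  rw [F z, G v]
  exact this

end Pool.Agent.U95.EV
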